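import Pool.Agent.W997.NL.Stm

/-!
# NL-COMP: the interval argument for the composite graph
-/

set_option autoImplicit false

namespace Pool.Agent.W334.NLCOMP

open Finset Pool.Agent.W997.NL
open Pool.Agent.W997.SR (Dag)

theorem exists_last (P : ℕ → Prop) (lo hi : ℕ) (h : lo ≤ hi) (hlo : P lo) :
    ∃ t, lo ≤ t ∧ t ≤ hi ∧ P t ∧ ∀ k, t < k → k ≤ hi → ¬ P k := by
  induction hi with
  | zero =>
    refine ⟨lo, le_refl _, h, hlo, fun k h1 h2 => ?_⟩
    omega
  | succ n ih =>
    by_cases hP : P (n + 1)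
    · exact ⟨n + 1, h, le_refl _, hP, fun k h1 h2 => by omega⟩
    · have hlon : lo ≤ n := by
        rcases Nat.lt_or_ge lo (n + 1) with h1 | h1
        · omega
        · have : lo = n + 1 := by omega
          rw [this] at hlo
          exact absurd hlo hP
      obtain ⟨t, h1, h2, h3, h4⟩ := ih hlon
      refine ⟨t, h1, by omega, h3, fun k hk1 hk2 => ?_⟩
      rcases Nat.lt_or_ge k (n + 1) with h5 | h5
      · exact h4 k hk1 (by omega)
      · have : k = n + 1 := by omega
        rw [this]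
        exact hP

theorem exists_first (P : ℕ → Prop) (lo hi : ℕ) (h : ∃ t, lo ≤ t ∧ t ≤ hi ∧ P t) :
    ∃ t, lo ≤ t ∧ t ≤ hi ∧ P t ∧ ∀ k, lo ≤ k → k < t → ¬ P k := by
  classical
  have hf := Nat.find_spec h
  refine ⟨Nat.find h, hf.1, hf.2.1, hf.2.2, fun k hk1 hk2 hPk => ?_⟩
  exact Nat.find_min h hk2 ⟨hk1, by omega, hPk⟩

/-- the argument in numbers -/
theorem core (u : ℕ) (hu : 1 ≤ u) (c p1 p2 : ℕ → ℕ) (out inp o1 i1 o2 i2 : ℕ → ℕ → ℕ)
    (hsum : ∀ t, p1 t + p2 t ≤ c t)
    (h1 : ∀ a b, 4 * c a < out a b → 64 * u ≤ o2 a b + 2 * c a)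
    (h2 : ∀ a b, o2 a b ≤ i2 a b + c a)
    (h3 : ∀ a b, i2 a b ≤ o1 a b + p1 a)
    (h4 : ∀ a b, o1 a b ≤ i1 a b + c a)
    (h5 : ∀ a b, 2 * c a < i1 a b → 2 * (64 * u) ≤ inp a b + 3 * c a)
    (hout : ∀ a b d, a ≤ b → b ≤ d → out a d ≤ out a b + out b d)
    (hi2 : ∀ a b d, a ≤ b → b ≤ d → i2 a d ≤ i2 a b + i2 b d)
    (hm1 : ∀ a a' b, a ≤ a' → i1 a' b ≤ i1 a b)
    (hm2 : ∀ a a' b, a ≤ a' → i2 a' b ≤ i2 a b)
    (hQ1 : ∀ a b, a ≤ b → p1 a ≤ 2 * u → 17 * u ≤ o1 a b →
      ∃ a' b', a ≤ a' ∧ a' ≤ b' ∧ b' ≤ b ∧ (∀ t, a' < t → t < b' → u ≤ p1 t) ∧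
        38 * u ≤ i1 a' b')
    (hQ2 : ∀ a b, a ≤ b → p2 a ≤ 2 * u → 17 * u ≤ o2 a b →
      ∃ a' b', a ≤ a' ∧ a' ≤ b' ∧ b' ≤ b ∧ (∀ t, a' < t → t < b' → u ≤ p2 t) ∧
        38 * u ≤ i2 a' b')
    (a b : ℕ) (hab : a ≤ b) (hca : c a ≤ 2 * (2 * u)) (ho : 17 * (2 * u) ≤ out a b) :
    ∃ a' b', a ≤ a' ∧ a' ≤ b' ∧ b' ≤ b ∧ (∀ t, a' < t → t < b' → 2 * u ≤ c t) ∧
      38 * (2 * u) ≤ inp a' b' := by
  have factA : ∀ x y, c x ≤ 4 * u → 17 * u ≤ out x y → 38 * (2 * u) ≤ inp x y := by
    intro x y hx hy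
    have g1 := h1 x y (by omega)
    have g2 := h2 x y
    have g3 := h3 x y
    have g4 := h4 x y
    have gs := hsum x
    have g5 := h5 x y (by omega)
    omega
  have factB : ∀ x y, c x ≤ 2 * u → 4 * u < i1 x y → 38 * (2 * u) ≤ inp x y := by
    intro x y hx hy
    have g5 := h5 x y (by omega)
    omega
  by_cases hex : ∃ t, a ≤ t ∧ t ≤ b ∧ c t ≤ 2 * u
  · obtain ⟨t0, ht1, ht2, ht3, ht4⟩ := exists_first (fun t => c t ≤ 2 * u) a b hex
    have hsplit := hout a t0 b ht1 ht2
    by_cases hA : 17 * u ≤ out a t0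
    · refine ⟨a, t0, le_refl _, ht1, ht2, fun t hta htt => ?_, factA a t0 (by omega) hA⟩
      have := ht4 t (by omega) htt
      omega
    · have hB : 17 * u ≤ out t0 b := by omega
      have g1 := h1 t0 b (by omega)
      have gs0 := hsum t0
      obtain ⟨s, e, hs1, hs2, hs3, hs4, hs5⟩ := hQ2 t0 b ht2 (by omega) (by omega)
      by_cases hB1 : ∃ s', s ≤ s' ∧ s' ≤ e ∧ p1 s' ≤ 2 * u
      · obtain ⟨s', hss1, hss2, hss3, hss4⟩ :=
          exists_first (fun t => p1 t ≤ 2 * u) s e hB1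
        by_cases h19 : 19 * u ≤ i2 s' e
        · -- B1
          have g3 := h3 s' e
          obtain ⟨s1, e1, hr1, hr2, hr3, hr4, hr5⟩ := hQ1 s' e hss2 hss3 (by omega)
          obtain ⟨t2, hl1, hl2, hl3, hl4⟩ :=
            exists_last (fun t => c t ≤ 2 * u) t0 s1 (by omega) ht3
          have hm := hm1 t2 s1 e1 hl2
          refine ⟨t2, e1, by omega, by omega, by omega, fun t hta htt => ?_,
            factB t2 e1 hl3 (by omega)⟩
          rcases Nat.lt_or_ge s1 t with hc | hc
          · have k1 := hr4 t hc htt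
            have k2 := hs4 t (by omega) (by omega)
            have k3 := hsum t
            omega
          · have := hl4 t hta hc
            omega
        · -- B2, first case
          have hsp := hi2 s s' e hss1 hss2
          obtain ⟨t2, hl1, hl2, hl3, hl4⟩ :=
            exists_last (fun t => c t ≤ 2 * u) t0 s (by omega) ht3
          have hm := hm2 t2 s s' hl2
          have g3 := h3 t2 s'
          have g4 := h4 t2 s'
          have gs := hsum t2
          refine ⟨t2, s', by omega, by omega, by omega, fun t hta htt => ?_,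
            factB t2 s' hl3 (by omega)⟩
          rcases Nat.lt_or_ge s t with hc | hc
          · have k1 := hss4 t (by omega) htt
            have k3 := hsum t
            omega
          · have := hl4 t hta hc
            omega
      · -- B2, second case
        obtain ⟨t2, hl1, hl2, hl3, hl4⟩ :=
          exists_last (fun t => c t ≤ 2 * u) t0 s (by omega) ht3
        have hm := hm2 t2 s e hl2
        have g3 := h3 t2 e
        have g4 := h4 t2 e
        have gs := hsum t2
        refine ⟨t2, e, by omega, by omega, by omega, fun t hta htt => ?_,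
          factB t2 e hl3 (by omega)⟩
        rcases Nat.lt_or_ge s t with hc | hc
        · have k1 : ¬ p1 t ≤ 2 * u := fun hk => hB1 ⟨t, by omega, by omega, hk⟩
          have k3 := hsum t
          omega
        · have := hl4 t hta hc
          omega
  · refine ⟨a, b, le_refl _, hab, le_refl _, fun t hta htt => ?_, factA a b (by omega) (by omega)⟩
    have : ¬ c t ≤ 2 * u := fun hk => hex ⟨t, by omega, by omega, hk⟩
    omega

theorem placed_mono {I Γ : Type} [Fintype I] (C : ℕ → Finset Γ) (a a' b : ℕ) (f : I → Γ)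
    (h : a ≤ a') : placed C a' b f ≤ placed C a b f := by
  classical
  unfold placed
  apply card_le_card
  intro j hj
  rw [mem_filter] at hj ⊢
  obtain ⟨t, h1, h2⟩ := hj.2
  exact ⟨mem_univ _, t, by omega, h2⟩

theorem placed_add {I Γ : Type} [Fintype I] (C : ℕ → Finset Γ) (a b d : ℕ) (f : I → Γ) :
    placed C a d f ≤ placed C a b f + placed C b d f := by
  classical
  unfold placed
  refine le_trans (card_le_card ?_) (card_union_le _ _)
  intro j hj
  rw [mem_filter] at hj
  obtain ⟨t, h1, h2, h3⟩ := hj.2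
  rw [mem_union, mem_filter, mem_filter]
  rcases Nat.lt_or_ge t b with h4 | h4
  · exact Or.inl ⟨mem_univ _, t, h1, h4, h3⟩
  · exact Or.inr ⟨mem_univ _, t, h4, h2, h3⟩

theorem main : Pool.Agent.W997.NL.S_COMP := by
  intro hCH I _ _ S G u hS hD hQ hI hu C hC a b hab hca ho
  obtain ⟨hL1, hL2, hsum, hch⟩ := hCH I S G hS hD C hC
  refine core u hu (fun t => (C t).card) (fun t => (sub1 S G C t).card)
    (fun t => (sub2 S G C t).card) (fun a b => placed C a b (comp S G).out)
    (fun a b => placed C a b (comp S G).inp) (fun a b => placed (sub1 S G C) a b G.out)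
    (fun a b => placed (sub1 S G C) a b G.inp) (fun a b => placed (sub2 S G C) a b G.out)
    (fun a b => placed (sub2 S G C) a b G.inp) hsum ?_ ?_ ?_ ?_ ?_ ?_ ?_ ?_ ?_ ?_ ?_ a b hab hca ho
  · intro a b
    rw [← hI]
    exact (hch a b).1
  · exact fun a b => (hch a b).2.1
  · exact fun a b => (hch a b).2.2.1
  · exact fun a b => (hch a b).2.2.2.1
  · intro a b
    rw [← hI]
    exact (hch a b).2.2.2.2
  · exact fun a b d _ _ => placed_add C a b d _
  · exact fun a b d _ _ => placed_add (sub2 S G C) a b d _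
  · exact fun a a' b h => placed_mono (sub1 S G C) a a' b _ h
  · exact fun a a' b h => placed_mono (sub2 S G C) a a' b _ h
  · exact fun a b => hQ (sub1 S G C) hL1 a b
  · exact fun a b => hQ (sub2 S G C) hL2 a b

end Pool.Agent.W334.NLCOMP
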