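import Pool.Agent.W217.BE.Stm2

/-! Part ZCUT of project BE. -/

set_option autoImplicit false

namespace Pool.Agent.W334.BEZCUT
open Pool.Agent.W217.BE
open Polynomial

section
variable {C : Type} [CommRing C] {M : Type} [AddCommGroup M] [Module C[X] M] [Module C M]
  [IsScalarTower C C[X] M]

theorem cs (a : C) (x : M) : (Polynomial.C a : C[X]) • x = a • x :=
  algebraMap_smul C[X] a x

theorem comm (p : C[X]) (a : C) (x : M) : p • (a • x) = a • (p • x) := by
  rw [← cs a x, ← cs a (p • x), smul_smul, smul_smul, mul_comm]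

variable {N : ℤ → Submodule C M} (hN : DirectSum.IsInternal N)

theorem bij (hN : DirectSum.IsInternal N) : Function.Bijective (DirectSum.coeLinearMap N) := hN

/-- the decomposition -/
noncomputable def eqv (hN : DirectSum.IsInternal N) : (DirectSum ℤ fun i => N i) ≃ₗ[C] M :=
  LinearEquiv.ofBijective (DirectSum.coeLinearMap N) (bij hN)

theorem eqv_lof (hN : DirectSum.IsInternal N) (u : ℤ) (x : N u) :
    eqv hN (DirectSum.lof C ℤ (fun i => N i) u x) = x := by
  unfold eqv
  rw [LinearEquiv.ofBijective_apply]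
  exact DirectSum.coeLinearMap_lof _ _ _

/-- projection -/
noncomputable def pj (hN : DirectSum.IsInternal N) (t : ℤ) : M →ₗ[C] N t :=
  (DirectSum.component C ℤ (fun i => N i) t) ∘ₗ (eqv hN).symm.toLinearMap

include hN in
theorem pj_mem (t u : ℤ) (x : M) (hx : x ∈ N u) :
    ((pj hN t x : N t) : M) = if u = t then x else 0 := by
  have h1 : (eqv hN).symm x = DirectSum.lof C ℤ (fun i => N i) u ⟨x, hx⟩ := by
    rw [LinearEquiv.symm_apply_eq, eqv_lof]
  unfold pj
  rw [LinearMap.comp_apply]
  simp only [LinearEquiv.coe_coe]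
  rw [h1]
  split_ifs with h
  · subst h
    rw [DirectSum.component.lof_self]
  · rw [DirectSum.component.of, dif_neg h]
    rfl

include hN in
theorem ind (p : M → Prop) (h1 : ∀ u, ∀ x ∈ N u, p x) (h0 : p 0)
    (ha : ∀ x y, p x → p y → p (x + y)) (x : M) : p x := by
  have hx : x ∈ iSup N := by rw [hN.submodule_iSup_eq_top]; trivial
  exact Submodule.iSup_induction N (motive := p) hx h1 h0 ha

variable (hX : ∀ t x, x ∈ N t → (X : C[X]) • x ∈ N (t + 1))

include hX in
theorem pj_X (t : ℤ) (x : M) :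
    ((pj hN (t + 1) ((X : C[X]) • x) : N (t + 1)) : M) = (X : C[X]) • ((pj hN t x : N t) : M) := by
  refine ind hN (fun x => ((pj hN (t + 1) ((X : C[X]) • x) : N (t + 1)) : M) =
    (X : C[X]) • ((pj hN t x : N t) : M)) ?_ ?_ ?_ x
  · intro u x hx
    rw [pj_mem hN _ _ _ (hX u x hx), pj_mem hN _ _ _ hx]
    by_cases h : u = t
    · rw [if_pos (by omega), if_pos h]
    · rw [if_neg (by omega), if_neg h, smul_zero]
  · simp
  · intro x y h1 h2
    rw [smul_add, map_add, map_add, Submodule.coe_add, Submodule.coe_add, h1, h2, smul_add]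

include hX in
theorem pow_mem (k : ℕ) (t : ℤ) (x : M) (hx : x ∈ N t) : (X ^ k : C[X]) • x ∈ N (t + k) := by
  induction k with
  | zero => simpa using hx
  | succ k ih =>
    rw [pow_succ', mul_smul]
    have := hX _ _ ih
    rw [add_assoc] at this
    exact_mod_cast this

include hX in
theorem pj_poly (u : ℤ) (y : M) (hy : y ∈ N u) (s : C[X]) :
    ((pj hN u (s • y) : N u) : M) = s.coeff 0 • y := by
  induction s using Polynomial.induction_on' with
  | add p q h1 h2 => rw [add_smul, map_add, Submodule.coe_add, h1, h2, coeff_add, add_smul]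
  | monomial k a =>
    rw [← C_mul_X_pow_eq_monomial, mul_smul, cs, map_smul, Submodule.coe_smul,
      pj_mem hN _ _ _ (pow_mem hX k u y hy)]
    by_cases h : k = 0
    · subst h
      simp
    · rw [if_neg (by omega), smul_zero]
      have : (Polynomial.C a * X ^ k).coeff 0 = 0 := by
        rw [coeff_C_mul, coeff_X_pow, if_neg (by omega), mul_zero]
      rw [this, zero_smul]

include hN hX in
theorem kill (s : C[X]) (n : ℕ) (h : ∀ x : M, (s * X ^ n) • x = 0) (x : M) :
    s.coeff 0 • ((X ^ n : C[X]) • x) = 0 := by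
  refine ind hN (fun x => s.coeff 0 • ((X ^ n : C[X]) • x) = 0) ?_ ?_ ?_ x
  · intro u x hx
    have h1 := h x
    rw [mul_smul] at h1
    have h2 := pj_poly hN hX _ _ (pow_mem hX n u x hx) s
    rw [h1, map_zero, Submodule.coe_zero] at h2
    exact h2.symm
  · simp
  · intro x y h1 h2
    rw [smul_add, smul_add, h1, h2, add_zero]

/-- a closed set which contains generators is everything -/
theorem gen [Module.Finite C[X] M] (p : ℤ → M → Prop) (hmono : ∀ b c x, b ≤ c → p b x → p c x)
    (h0 : ∀ b, p b 0) (ha : ∀ b x y, p b x → p b y → p b (x + y))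
    (hc : ∀ b (a : C) x, p b x → p b (a • x)) (hXX : ∀ b x, p b x → p b ((X : C[X]) • x))
    (hex : ∀ x, ∃ b, p b x) : ∃ b, ∀ x, p b x := by
  classical
  obtain ⟨S, hS⟩ := (Module.finite_def (R := C[X]) (M := M)).1 inferInstance
  obtain ⟨b, hb⟩ : ∃ b, ∀ x ∈ S, p b x := by
    clear hS
    induction S using Finset.induction_on with
    | empty => exact ⟨0, by simp⟩
    | insert a S _ ih =>
      obtain ⟨b, hb⟩ := ih
      obtain ⟨c, hc⟩ := hex a
      refine ⟨max b c, fun x hx => ?_⟩
      rcases Finset.mem_insert.1 hx with rfl | hx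
      · exact hmono _ _ _ (le_max_right _ _) hc
      · exact hmono _ _ _ (le_max_left _ _) (hb x hx)
  refine ⟨b, fun x => ?_⟩
  have hx : x ∈ Submodule.span C[X] (S : Set M) := by rw [hS]; trivial
  induction hx using Submodule.span_induction with
  | mem x h => exact hb x h
  | zero => exact h0 b
  | add x y _ _ h1 h2 => exact ha b x y h1 h2
  | smul q x _ h =>
    induction q using Polynomial.induction_on' with
    | add q1 q2 h1 h2 => rw [add_smul]; exact ha b _ _ h1 h2
    | monomial k a =>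
      rw [← C_mul_X_pow_eq_monomial, mul_smul, cs]
      refine hc b a _ ?_
      induction k with
      | zero => simpa using h
      | succ k ih =>
        rw [pow_succ', mul_smul]
        exact hXX b _ ih

include hN hX in
theorem bdd_below [Module.Finite C[X] M] : ∃ b : ℤ, ∀ t < b, ∀ x ∈ N t, x = 0 := by
  obtain ⟨b, hb⟩ := gen (C := C) (M := M) (fun b x => ∀ t < -b, ((pj hN t x : N t) : M) = 0)
    (fun b c x hbc h t ht => h t (by omega))
    (fun b t _ => by simp)
    (fun b x y h1 h2 t ht => by rw [map_add, Submodule.coe_add, h1 t ht, h2 t ht, add_zero])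
    (fun b a x h t ht => by rw [map_smul, Submodule.coe_smul, h t ht, smul_zero])
    (fun b x h t ht => by
      have e : t = (t - 1) + 1 := by ring
      rw [e, pj_X hN hX, h (t - 1) (by omega), smul_zero])
    (fun x => by
      refine ind hN (fun x => ∃ b : ℤ, ∀ t < -b, ((pj hN t x : N t) : M) = 0) ?_ ?_ ?_ x
      · intro u x hx
        refine ⟨-u, fun t ht => ?_⟩
        rw [pj_mem hN _ _ _ hx, if_neg (by omega)]
      · exact ⟨0, fun t _ => by simp⟩
      · rintro x y ⟨b, hb⟩ ⟨c, hc⟩
        refine ⟨max b c, fun t ht => ?_⟩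
        have h1 := le_max_left b c
        have h2 := le_max_right b c
        rw [map_add, Submodule.coe_add, hb t (by omega), hc t (by omega), add_zero])
  refine ⟨-b, fun t ht x hx => ?_⟩
  have := hb x t ht
  rw [pj_mem hN _ _ _ hx, if_pos rfl] at this
  exact this

include hN hX in
theorem bdd_above [Module.Finite C[X] M] : ∃ b : ℤ, ∀ k : ℕ, ∀ x ∈ N (b + k), ∃ y : M,
    x = (X ^ k : C[X]) • y := by
  obtain ⟨b, hb⟩ := gen (C := C) (M := M) (fun b x => ∀ t ≥ b, ∀ k : ℕ, t = b + k →
      ∃ y : M, ((pj hN t x : N t) : M) = (X ^ k : C[X]) • y)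
    (fun b c x hbc h t ht k hk => by
      obtain ⟨y, hy⟩ := h t (by omega) (k + (c - b).toNat) (by push_cast; omega)
      refine ⟨(X ^ (c - b).toNat : C[X]) • y, ?_⟩
      rw [hy, pow_add, mul_smul])
    (fun b t _ k _ => ⟨0, by simp⟩)
    (fun b x y h1 h2 t ht k hk => by
      obtain ⟨y1, hy1⟩ := h1 t ht k hk
      obtain ⟨y2, hy2⟩ := h2 t ht k hk
      exact ⟨y1 + y2, by rw [map_add, Submodule.coe_add, hy1, hy2, smul_add]⟩)
    (fun b a x h t ht k hk => by
      obtain ⟨y, hy⟩ := h t ht k hk
      exact ⟨a • y, by rw [map_smul, Submodule.coe_smul, hy, comm]⟩)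
    (fun b x h t ht k hk => by
      rcases k with _ | k
      · exact ⟨_, by rw [pow_zero, one_smul]⟩
      · obtain ⟨y, hy⟩ := h (t - 1) (by push_cast at hk; omega) k (by push_cast at hk; omega)
        refine ⟨y, ?_⟩
        have e : t = (t - 1) + 1 := by ring
        rw [e, pj_X hN hX, hy, pow_succ', mul_smul])
    (fun x => by
      have h : ∃ b : ℤ, ∀ t ≥ b, ((pj hN t x : N t) : M) = 0 := by
        refine ind hN (fun x => ∃ b : ℤ, ∀ t ≥ b, ((pj hN t x : N t) : M) = 0) ?_ ?_ ?_ x
        · intro u x hx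
          refine ⟨u + 1, fun t ht => ?_⟩
          rw [pj_mem hN _ _ _ hx, if_neg (by omega)]
        · exact ⟨0, fun t _ => by simp⟩
        · rintro x y ⟨b, hb⟩ ⟨c, hc⟩
          refine ⟨max b c, fun t ht => ?_⟩
          have h1 := le_max_left b c
          have h2 := le_max_right b c
          rw [map_add, Submodule.coe_add, hb t (by omega), hc t (by omega), add_zero]
      obtain ⟨b, hb⟩ := h
      exact ⟨b, fun t ht k _ => ⟨0, by rw [hb t ht, smul_zero]⟩⟩)
  refine ⟨b, fun k x hx => ?_⟩
  obtain ⟨y, hy⟩ := hb x (b + k) (by omega) k rfl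
  rw [pj_mem hN _ _ _ hx, if_pos rfl] at hy
  exact ⟨y, hy⟩

include hN hX in
theorem fin_piece [IsNoetherianRing C] [Module.Finite C[X] M] (t : ℤ) : Module.Finite C (N t) := by
  have : IsNoetherian C[X] M := isNoetherian_of_isNoetherianRing_of_finite C[X] M
  have hfg : (Submodule.span C[X] (N t : Set M)).FG := IsNoetherian.noetherian _
  obtain ⟨F, hF, hF2⟩ := (Submodule.fg_span_iff_fg_span_finset_subset (N t : Set M)).1 hfg
  rw [Module.Finite.iff_fg]
  refine ⟨F, ?_⟩
  apply le_antisymm
  · exact Submodule.span_le.2 hF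
  · intro x hx
    have h1 : x ∈ Submodule.span C[X] (F : Set M) := by
      rw [← hF2]; exact Submodule.subset_span hx
    have h2 : ∀ q : C[X], ((pj hN t (q • x) : N t) : M) ∈ Submodule.span C (F : Set M) := by
      clear hx
      induction h1 using Submodule.span_induction with
      | mem x h =>
        intro q
        rw [pj_poly hN hX _ _ (hF h)]
        exact Submodule.smul_mem _ _ (Submodule.subset_span h)
      | zero => intro q; simp
      | add x y _ _ h1 h2 =>
        intro q
        rw [smul_add, map_add, Submodule.coe_add]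
        exact Submodule.add_mem _ (h1 q) (h2 q)
      | smul r x h h1 =>
        intro q
        rw [smul_smul]
        exact h1 _
    have h3 := h2 1
    rw [one_smul, pj_mem hN _ _ _ hx, if_pos rfl] at h3
    exact h3

end

theorem fin_kill {C κ P : Type} [CommRing C] [Field κ] (χ : C →+* κ) [AddCommGroup P] [Module C P]
    [Module.Finite C P] (h : ¬ NZ χ P) : ∃ s, χ s ≠ 0 ∧ ∀ x : P, s • x = 0 := by
  classical
  have h1 : ∀ x : P, ∃ s, χ s ≠ 0 ∧ s • x = 0 := by
    intro x
    by_contra hcon
    push Not at hcon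
    exact h ⟨x, hcon⟩
  obtain ⟨F, hF⟩ := (Module.finite_def (R := C) (M := P)).1 inferInstance
  obtain ⟨s, hs, hsF⟩ : ∃ s, χ s ≠ 0 ∧ ∀ x ∈ F, s • x = 0 := by
    clear hF
    induction F using Finset.induction_on with
    | empty => exact ⟨1, by simp, by simp⟩
    | insert a F _ ih =>
      obtain ⟨s, hs, hsF⟩ := ih
      obtain ⟨r, hr, hra⟩ := h1 a
      refine ⟨s * r, by rw [map_mul]; exact mul_ne_zero hs hr, fun x hx => ?_⟩
      rcases Finset.mem_insert.1 hx with rfl | hx
      · rw [mul_smul, hra, smul_zero]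
      · rw [mul_comm, mul_smul, hsF x hx, smul_zero]
  refine ⟨s, hs, fun x => ?_⟩
  have hx : x ∈ Submodule.span C (F : Set P) := by rw [hF]; trivial
  induction hx using Submodule.span_induction with
  | mem x h => exact hsF x h
  | zero => exact smul_zero _
  | add x y _ _ h1 h2 => rw [smul_add, h1, h2, add_zero]
  | smul r x _ h => rw [smul_comm, h, smul_zero]

theorem main : ZCUT := by
  intro C κ _ _ _ χ M _ _ _ _ _ N hN hX hNZ hsn top
  classical
  obtain ⟨n, s, hs, hsn⟩ := hsn
  obtain ⟨b1, hb1⟩ := bdd_below hN hX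
  obtain ⟨b2, hb2⟩ := bdd_above hN hX
  have hk := kill hN hX s n hsn
  have hup : ∀ t, NZ χ (N t) → t ≤ b2 + n := by
    rintro t ⟨x, hx⟩
    by_contra ht
    push Not at ht
    apply hx (s.coeff 0) hs
    obtain ⟨k, rfl⟩ : ∃ k : ℕ, t = b2 + ((n + k : ℕ) : ℤ) :=
      ⟨(t - b2 - n).toNat, by push_cast; omega⟩
    obtain ⟨y, hy⟩ := hb2 (n + k) x x.2
    apply Subtype.ext
    rw [Submodule.coe_smul, hy, pow_add, mul_smul, hk]
    rfl
  have hlow : ∀ t, NZ χ (N t) → b1 ≤ t := by
    rintro t ⟨x, hx⟩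
    by_contra ht
    push Not at ht
    apply hx 1 (by simp)
    rw [one_smul]
    exact Subtype.ext (hb1 t ht x x.2)
  have hne : ∃ t, NZ χ (N t) := by
    by_contra hcon
    push Not at hcon
    obtain ⟨x0, hx0⟩ := hNZ
    have h : ∃ r : C, χ r ≠ 0 ∧ r • x0 = 0 := by
      refine ind hN (fun x => ∃ r : C, χ r ≠ 0 ∧ r • x = 0) ?_ ?_ ?_ x0
      · intro u x hx
        by_contra h
        push Not at h
        exact hcon u ⟨⟨x, hx⟩, fun s hs h0 => h s hs (congrArg Subtype.val h0)⟩
      · exact ⟨1, by simp, smul_zero _⟩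
      · rintro x y ⟨r1, h1, h1'⟩ ⟨r2, h2, h2'⟩
        refine ⟨r1 * r2, by rw [map_mul]; exact mul_ne_zero h1 h2, ?_⟩
        rw [smul_add, mul_smul r1 r2 y, h2', smul_zero, mul_comm, mul_smul, h1', smul_zero,
          add_zero]
    obtain ⟨r, hr, hr'⟩ := h
    exact hx0 (Polynomial.C r) (by simpa using hr) (by rw [cs, hr'])
  cases top with
  | false =>
    obtain ⟨t0, h1, h2⟩ := Int.exists_least_of_bdd ⟨b1, hlow⟩ hne
    obtain ⟨t1, rfl⟩ : ∃ t1, t0 = t1 + 1 := ⟨t0 - 1, by ring⟩
    have h3 : ¬ NZ χ (N t1) := fun h => by have := h2 _ h; omega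
    have := fin_piece hN hX t1
    obtain ⟨r, hr, hr0⟩ := fin_kill χ h3
    refine ⟨t1 + 1, r • pj hN (t1 + 1), (N (t1 + 1)).subtype, r, hr, h1,
      fin_piece hN hX (t1 + 1), ?_, ?_, fun h => by simp at h⟩
    · intro x
      apply Subtype.ext
      rw [LinearMap.smul_apply, Submodule.coe_smul, Submodule.subtype_apply,
        pj_mem hN _ _ _ x.2, if_pos rfl]
      rfl
    · intro _ x
      apply Subtype.ext
      rw [LinearMap.smul_apply, Submodule.coe_smul, pj_X hN hX, ← comm]
      have h4 := congrArg Subtype.val (hr0 (pj hN t1 x))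
      rw [Submodule.coe_smul] at h4
      rw [h4]
      simp
  | true =>
    obtain ⟨t0, h1, h2⟩ := Int.exists_greatest_of_bdd ⟨b2 + n, hup⟩ hne
    have h3 : ¬ NZ χ (N (t0 + 1)) := fun h => by have := h2 _ h; omega
    have := fin_piece hN hX (t0 + 1)
    obtain ⟨r, hr, hr0⟩ := fin_kill χ h3
    refine ⟨t0, pj hN t0, r • (N t0).subtype, r, hr, h1, fin_piece hN hX t0, ?_,
      fun h => by simp at h, ?_⟩
    · intro x
      apply Subtype.ext
      rw [LinearMap.smul_apply, map_smul, Submodule.coe_smul, Submodule.subtype_apply,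
        pj_mem hN _ _ _ x.2, if_pos rfl]
      rfl
    · intro _ x
      rw [LinearMap.smul_apply, Submodule.subtype_apply, comm]
      have h4 := congrArg Subtype.val (hr0 ⟨(X : C[X]) • (x : M), hX _ _ x.2⟩)
      rw [Submodule.coe_smul] at h4
      exact h4

end Pool.Agent.W334.BEZCUT
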