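import Mathlib

set_option autoImplicit false
set_option linter.all false

noncomputable section

namespace Pool.Agent.W334.Cone

open Set Filter Topology

/-- a partially ordered set with its upper set topology -/
def Up (Λ : Type) : Type := Λ

instance {Λ : Type} [h : AddCommGroup Λ] : AddCommGroup (Up Λ) := h
instance {Λ : Type} [h : PartialOrder Λ] : PartialOrder (Up Λ) := h
instance {Λ : Type} [AddCommGroup Λ] [PartialOrder Λ] [h : IsOrderedAddMonoid Λ] :
    IsOrderedAddMonoid (Up Λ) := h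
instance {Λ : Type} [PartialOrder Λ] : TopologicalSpace (Up Λ) := Topology.upperSet (Up Λ)
instance {Λ : Type} [PartialOrder Λ] : Topology.IsUpperSet (Up Λ) := ⟨rfl⟩

theorem nhds_up {Λ : Type} [PartialOrder Λ] (a : Up Λ) : 𝓝 a = 𝓟 (Ici a) :=
  Topology.IsUpperSet.nhds_eq_principal_Ici a

instance {Λ : Type} [AddCommGroup Λ] [PartialOrder Λ] [IsOrderedAddMonoid Λ] :
    ContinuousAdd (Up Λ) := by
  refine ⟨continuous_iff_continuousAt.2 ?_⟩
  rintro ⟨a, b⟩
  unfold ContinuousAt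
  rw [nhds_prod_eq, nhds_up, nhds_up, nhds_up, prod_principal_principal, tendsto_principal_principal]
  rintro ⟨x, y⟩ ⟨hx, hy⟩
  exact add_le_add hx hy

section General

variable {J C Λ : Type} [AddCommGroup C] [AddCommGroup Λ]

/-- the pairs `(x, l)`, `x : J → C`, `l : Λ`, such that `x j = φ l` for all but countably
many `j` -/
def Grp (J : Type) (φ : Λ →+ C) : AddSubgroup ((J → C) × Up Λ) where
  carrier := {g | {j | g.1 j ≠ φ g.2}.Countable}
  zero_mem' := by
    show {j : J | (0 : C) ≠ φ (0 : Λ)}.Countable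
    simp
  add_mem' := by
    intro x y hx hy
    refine (hx.union hy).mono ?_
    intro j hj
    by_contra h
    simp only [mem_union, mem_setOf_eq, not_or, not_not] at h
    apply hj
    show x.1 j + y.1 j = φ (x.2 + y.2)
    rw [h.1, h.2]
    exact (map_add φ _ _).symm
  neg_mem' := by
    intro x hx
    refine Set.Countable.mono ?_ hx
    intro j hj h
    apply hj
    show - x.1 j = φ (- x.2)
    rw [h]
    exact (map_neg φ _).symm

variable {φ : Λ →+ C}

theorem mem_Grp {g : (J → C) × Up Λ} : g ∈ Grp J φ ↔ {j | g.1 j ≠ φ g.2}.Countable := Iff.rfl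

variable [TopologicalSpace C] [PartialOrder Λ]

theorem mem_nhds_Grp (g : Grp J φ) (U : Set (Grp J φ)) : U ∈ 𝓝 g ↔
    ∃ (F : Finset J) (T : J → Set C), (∀ j, T j ∈ 𝓝 (g.1.1 j)) ∧
      ∀ h : Grp J φ, (∀ j ∈ F, h.1.1 j ∈ T j) → g.1.2 ≤ h.1.2 → h ∈ U := by
  rw [nhds_induced, mem_comap]
  constructor
  · rintro ⟨t, ht, htU⟩
    rw [nhds_prod_eq, mem_prod_iff] at ht
    obtain ⟨A, hA, B, hB, hAB⟩ := ht
    rw [nhds_pi, mem_pi'] at hA
    rw [nhds_up, mem_principal] at hB
    obtain ⟨F, T, hT, hFT⟩ := hA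
    refine ⟨F, T, hT, ?_⟩
    intro h h1 h2
    apply htU
    exact hAB ⟨hFT (fun j hj => h1 j hj), hB h2⟩
  · rintro ⟨F, T, hT, h⟩
    refine ⟨((F : Set J).pi T) ×ˢ Ici g.1.2, ?_, ?_⟩
    · rw [nhds_prod_eq]
      apply prod_mem_prod
      · rw [nhds_pi, mem_pi']
        exact ⟨F, T, hT, subset_rfl⟩
      · rw [nhds_up]; exact mem_principal_self _
    · rintro k ⟨hk1, hk2⟩
      exact h k (fun j hj => hk1 j hj) hk2

theorem t2 [T2Space C] [Uncountable J] (hφ : Function.Injective φ) : T2Space (Grp J φ) := by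
  refine T2Space.of_injective_continuous (f := fun g : Grp J φ => g.1.1) ?_
    (continuous_fst.comp continuous_subtype_val)
  intro g h hgh
  have h1 : ({j | g.1.1 j ≠ φ g.1.2} ∪ {j | h.1.1 j ≠ φ h.1.2}).Countable := g.2.union h.2
  obtain ⟨j, hj⟩ : ({j | g.1.1 j ≠ φ g.1.2} ∪ {j | h.1.1 j ≠ φ h.1.2})ᶜ.Nonempty := by
    rw [nonempty_compl]
    intro h2
    rw [h2] at h1
    exact not_countable_univ h1
  simp only [mem_compl_iff, mem_union, mem_setOf_eq, not_or, not_not] at hj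
  have hgh' : g.1.1 = h.1.1 := hgh
  have h2 : g.1.2 = h.1.2 := by
    apply hφ
    rw [← hj.1, ← hj.2, hgh']
  exact Subtype.ext (Prod.ext hgh h2)

/-- the element equal to `x` on `N` and to `φ l` elsewhere -/
def pt (φ : Λ →+ C) (N : Set J) (hN : N.Countable) (x : J → C) (l : Λ) : Grp J φ :=
  letI := Classical.decPred (fun j => j ∈ N)
  ⟨(fun j => if j ∈ N then x j else φ l, l), by
    rw [mem_Grp]
    refine hN.mono ?_
    intro j hj
    by_contra h
    exact hj (by simp [h])⟩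

theorem pt_snd (N : Set J) (hN : N.Countable) (x : J → C) (l : Λ) :
    (pt φ N hN x l).1.2 = l := rfl

theorem pt_mem (N : Set J) (hN : N.Countable) (x : J → C) (l : Λ) {j : J} (hj : j ∈ N) :
    (pt φ N hN x l).1.1 j = x j := by
  simp [pt, hj]

theorem pt_not_mem (N : Set J) (hN : N.Countable) (x : J → C) (l : Λ) {j : J} (hj : j ∉ N) :
    (pt φ N hN x l).1.1 j = φ l := by
  simp [pt, hj]

theorem not_continuousNeg [IsOrderedAddMonoid Λ] (hpos : ∃ l : Λ, 0 < l) :
    ¬ ContinuousNeg (Grp J φ) := by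
  intro hc
  obtain ⟨l, hl⟩ := hpos
  have hU : {g : Grp J φ | (0 : Up Λ) ≤ g.1.2} ∈ 𝓝 (0 : Grp J φ) := by
    rw [mem_nhds_Grp]
    exact ⟨∅, fun _ => univ, fun _ => univ_mem, fun h _ h2 => h2⟩
  have hV : {g : Grp J φ | (0 : Up Λ) ≤ (-g).1.2} ∈ 𝓝 (0 : Grp J φ) := by
    have h1 : Tendsto (fun g : Grp J φ => -g) (𝓝 0) (𝓝 (-0)) := (continuous_neg).tendsto 0
    rw [neg_zero] at h1
    exact h1 hU
  rw [mem_nhds_Grp] at hV
  obtain ⟨F, T, hT, h⟩ := hV
  have h2 := h (pt φ (F : Set J) F.countable_toSet 0 l) (by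
    intro j hj
    rw [pt_mem _ _ _ _ hj]
    exact mem_of_mem_nhds (hT j)) (show (0 : Λ) ≤ l from hl.le)
  have h3 : (0 : Λ) ≤ -l := h2
  have h4 : l ≤ 0 := by
    have := add_le_add_right h3 l
    simpa using this
  exact absurd hl h4.not_gt

instance [IsTopologicalAddGroup C] [IsOrderedAddMonoid Λ] : ContinuousAdd (Grp J φ) :=
  (Topology.IsInducing.subtypeVal : IsInducing (fun g : Grp J φ => (g : (J → C) × Up Λ))).continuousAdd
    ((Grp J φ).subtype)

/-- `G` is 2-pseudocompact (additive form). -/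
def TwoPsc (G : Type) [AddGroup G] [TopologicalSpace G] : Prop :=
  ∀ U : ℕ → Set G, (∀ n, IsOpen (U n)) → (∀ n, (U n).Nonempty) → (∀ n, U (n + 1) ⊆ U n) →
    (⋂ n, closure (-(U n))).Nonempty

theorem twoPsc [IsTopologicalAddGroup C] [CompactSpace C] [IsOrderedAddMonoid Λ]
    (hub : ∀ l : ℕ → Λ, ∃ b, ∀ n, l n ≤ b) : TwoPsc (Grp J φ) := by
  intro U hUo hUne hUs
  have hanti : Antitone U := antitone_nat_of_succ_le hUs
  choose g hg using hUne
  have hN := fun n => (mem_nhds_Grp _ _).1 ((hUo n).mem_nhds (hg n))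
  choose F T hT hFT using hN
  let N : Set J := (⋃ n, (F n : Set J)) ∪ ⋃ n, {j | (g n).1.1 j ≠ φ (g n).1.2}
  have hNc : N.Countable :=
    (countable_iUnion fun n => (F n).countable_toSet).union (countable_iUnion fun n => (g n).2)
  obtain ⟨b, hb⟩ := hub (fun n => (g n).1.2)
  have hlim : ∀ j : J, ∃ z : C, Tendsto (fun n => (g n).1.1 j) (hyperfilter ℕ) (𝓝 z) := by
    intro j
    obtain ⟨y, _, hy⟩ := (isCompact_univ (X := C)).ultrafilter_le_nhds
      ((hyperfilter ℕ).map (fun n => (g n).1.1 j)) (by simp)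
    exact ⟨y, hy⟩
  choose z hz using hlim
  let w : Grp J φ := pt φ N hNc z b
  refine ⟨-w, ?_⟩
  rw [mem_iInter]
  intro n
  rw [mem_closure_iff_nhds]
  intro O hO
  rw [mem_nhds_Grp] at hO
  obtain ⟨E, S, hS, hES⟩ := hO
  -- choose m
  have hev : ∀ᶠ m in (hyperfilter ℕ : Filter ℕ), ∀ j ∈ E, j ∈ N → -(g m).1.1 j ∈ S j := by
    rw [Filter.eventually_all_finset]
    intro j hj
    by_cases hjN : j ∈ N
    · have h1 : Tendsto (fun m => -(g m).1.1 j) (hyperfilter ℕ) (𝓝 (-z j)) := (hz j).neg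
      have h2 : (-w).1.1 j = -z j := by
        show -(w.1.1 j) = _
        rw [show w.1.1 j = z j from pt_mem _ _ _ _ hjN]
      have h3 := hS j
      rw [h2] at h3
      filter_upwards [h1 h3] with m hm _ using hm
    · exact Filter.Eventually.of_forall fun m h => absurd h hjN
  have hev2 : ∀ᶠ m in (hyperfilter ℕ : Filter ℕ), n ≤ m :=
    (Filter.eventually_ge_atTop n).filter_mono (by
      rw [← Nat.cofinite_eq_atTop]; exact hyperfilter_le_cofinite)
  obtain ⟨m, hm1, hm2⟩ := (hev.and hev2).exists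
  classical
  let y : J → C := fun j => if j ∈ N then (g m).1.1 j else φ b
  let h : Grp J φ := pt φ (N ∪ (E : Set J)) (hNc.union E.countable_toSet) y (g m).1.2
  have hhN : ∀ j ∈ N, h.1.1 j = (g m).1.1 j := by
    intro j hj
    rw [show h.1.1 j = y j from pt_mem _ _ _ _ (Or.inl hj)]
    simp only [y, if_pos hj]
  have hhE : ∀ j ∈ E, j ∉ N → h.1.1 j = φ b := by
    intro j hj hjN
    rw [show h.1.1 j = y j from pt_mem _ _ _ _ (Or.inr hj)]
    simp only [y, if_neg hjN]
  refine ⟨-h, ?_, ?_⟩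
  · apply hES
    · intro j hj
      show -(h.1.1 j) ∈ S j
      by_cases hjN : j ∈ N
      · rw [hhN j hjN]; exact hm1 j hj hjN
      · rw [hhE j hj hjN]
        have h3 := mem_of_mem_nhds (hS j)
        have h2 : (-w).1.1 j = -φ b := by
          show -(w.1.1 j) = _
          rw [show w.1.1 j = φ b from pt_not_mem _ _ _ _ hjN]
        rwa [h2] at h3
    · show -b ≤ -(g m).1.2
      exact neg_le_neg (hb m)
  · rw [Set.neg_mem_neg]
    apply hanti hm2
    apply hFT m
    · intro j hj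
      rw [hhN j (Or.inl (mem_iUnion.2 ⟨m, hj⟩))]
      exact mem_of_mem_nhds (hT m j)
    · exact le_refl _

/-- `X` is countably pracompact -/
def CPrac (X : Type) [TopologicalSpace X] : Prop :=
  ∃ D : Set X, Dense D ∧ ∀ B : Set X, B ⊆ D → B.Infinite →
    ∃ x : X, ∀ U ∈ 𝓝 x, (U ∩ B).Infinite

theorem cPrac [CompactSpace C] [IsOrderedAddMonoid Λ] (L : Set Λ)
    (hcof : ∀ l : Λ, ∃ l' ∈ L, l ≤ l') (hpos : ∀ l ∈ L, 0 ≤ l)
    (hfin : ∀ W ∈ 𝓝 (0 : C), {l | l ∈ L ∧ φ l ∉ W}.Finite) : CPrac (Grp J φ) := by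
  refine ⟨{g | g.1.2 ∈ L}, ?_, ?_⟩
  · intro g
    rw [mem_closure_iff_nhds]
    intro O hO
    rw [mem_nhds_Grp] at hO
    obtain ⟨E, S, hS, hES⟩ := hO
    obtain ⟨l', hl', hll⟩ := hcof g.1.2
    refine ⟨pt φ (E : Set J) E.countable_toSet g.1.1 l', ?_, hl'⟩
    apply hES
    · intro j hj
      rw [pt_mem _ _ _ _ hj]
      exact mem_of_mem_nhds (hS j)
    · exact hll
  · intro B hB hBinf
    let g : ℕ ↪ B := hBinf.natEmbedding
    -- a nonprincipal ultrafilter and a limit for the second coordinate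
    obtain ⟨p, hp, b, hb1, hb2⟩ : ∃ p : Ultrafilter ℕ, (p : Filter ℕ) ≤ cofinite ∧
        ∃ b : Λ, (∀ᶠ n in (p : Filter ℕ), b ≤ (g n).1.1.2) ∧
          Tendsto (fun n => φ (g n).1.1.2) (p : Filter ℕ) (𝓝 (φ b)) := by
      by_cases hcase : ∃ l : Λ, {n | (g n).1.1.2 = l}.Infinite
      · obtain ⟨l, hl⟩ := hcase
        have hne : (cofinite ⊓ 𝓟 {n | (g n).1.1.2 = l}).NeBot := by
          rw [Filter.cofinite_inf_principal_neBot_iff]
          exact hl
        refine ⟨Ultrafilter.of (cofinite ⊓ 𝓟 {n | (g n).1.1.2 = l}),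
          (Ultrafilter.of_le _).trans inf_le_left, l, ?_, ?_⟩
        · have : {n | (g n).1.1.2 = l} ∈ (Ultrafilter.of (cofinite ⊓ 𝓟 {n | (g n).1.1.2 = l}) : Filter ℕ) :=
            ((Ultrafilter.of_le _).trans inf_le_right) (mem_principal_self _)
          filter_upwards [this] with n hn
          exact (show (g n).1.1.2 = l from hn).ge
        · have : {n | (g n).1.1.2 = l} ∈ (Ultrafilter.of (cofinite ⊓ 𝓟 {n | (g n).1.1.2 = l}) : Filter ℕ) :=
            ((Ultrafilter.of_le _).trans inf_le_right) (mem_principal_self _)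
          apply tendsto_const_nhds.congr'
          filter_upwards [this] with n hn
          rw [show (g n).1.1.2 = l from hn]
      · push Not at hcase
        refine ⟨hyperfilter ℕ, hyperfilter_le_cofinite, 0, ?_, ?_⟩
        · exact Filter.Eventually.of_forall fun n => hpos _ (hB (g n).2)
        · rw [map_zero]
          intro W hW
          have h1 := hfin W hW
          have h2 : {n | φ (g n).1.1.2 ∉ W}.Finite := by
            have h3 : {n | φ (g n).1.1.2 ∉ W} ⊆ ⋃ l ∈ {l | l ∈ L ∧ φ l ∉ W}, {n | (g n).1.1.2 = l} := by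
              intro n hn
              simp only [mem_iUnion]
              exact ⟨(g n).1.1.2, ⟨hB (g n).2, hn⟩, rfl⟩
            refine Set.Finite.subset ?_ h3
            exact h1.biUnion fun l _ => hcase l
          have h4 : {n | φ (g n).1.1.2 ∉ W}ᶜ ∈ (hyperfilter ℕ : Filter ℕ) :=
            hyperfilter_le_cofinite (by simpa using h2)
          rw [Filter.mem_map]
          filter_upwards [h4] with n hn
          simpa using hn
    let N : Set J := ⋃ n, {j | (g n).1.1.1 j ≠ φ (g n).1.1.2}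
    have hNc : N.Countable := countable_iUnion fun n => (g n).1.2
    have hlim : ∀ j : J, ∃ z : C, Tendsto (fun n => (g n).1.1.1 j) (p : Filter ℕ) (𝓝 z) := by
      intro j
      obtain ⟨y, _, hy⟩ := (isCompact_univ (X := C)).ultrafilter_le_nhds
        (p.map (fun n => (g n).1.1.1 j)) (by simp)
      exact ⟨y, hy⟩
    choose z hz using hlim
    refine ⟨pt φ N hNc z b, ?_⟩
    intro U hU
    rw [mem_nhds_Grp] at hU
    obtain ⟨E, S, hS, hES⟩ := hU
    have hev : ∀ᶠ n in (p : Filter ℕ), ∀ j ∈ E, (g n).1.1.1 j ∈ S j := by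
      rw [Filter.eventually_all_finset]
      intro j hj
      have h3 := hS j
      by_cases hjN : j ∈ N
      · rw [pt_mem _ _ _ _ hjN] at h3
        exact hz j h3
      · rw [pt_not_mem _ _ _ _ hjN] at h3
        filter_upwards [hb2 h3] with n hn
        have : (g n).1.1.1 j = φ (g n).1.1.2 := by
          by_contra hcon
          exact hjN (mem_iUnion.2 ⟨n, hcon⟩)
        rw [this]; exact hn
    have hmem : {n | (g n).1 ∈ U} ∈ (p : Filter ℕ) := by
      filter_upwards [hev, hb1] with n h1 h2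
      exact hES _ h1 h2
    have hinf : {n | (g n).1 ∈ U}.Infinite := by
      intro hfin'
      have h1 : {n | (g n).1 ∈ U}ᶜ ∈ (p : Filter ℕ) := hp (by simpa using hfin')
      have h2 := Filter.inter_mem hmem h1
      rw [inter_compl_self] at h2
      exact Filter.empty_notMem _ h2
    have hinj : Function.Injective (fun n => (g n).1) := Subtype.val_injective.comp g.injective
    refine (hinf.image hinj.injOn).mono ?_
    rintro _ ⟨n, hn, rfl⟩
    exact ⟨hn, (g n).2⟩

/-- a cylinder: finitely many closed conditions and a lower bound -/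
structure Cyl (J C Λ : Type) [TopologicalSpace C] where
  F : Finset J
  T : J → Set C
  l : Λ
  hT : ∀ j, IsClosed (T j)

/-- points of the cylinder in `J → C` -/
def Cyl.K (s : Cyl J C Λ) : Set (J → C) := {x | ∀ j ∈ s.F, x j ∈ s.T j}

def Cyl.A (φ : Λ →+ C) (s : Cyl J C Λ) : Set (Grp J φ) := {g | g.1.1 ∈ s.K ∧ s.l ≤ g.1.2}

def Cyl.Aint (φ : Λ →+ C) (s : Cyl J C Λ) : Set (Grp J φ) :=
  {g | (∀ j ∈ s.F, g.1.1 j ∈ interior (s.T j)) ∧ s.l ≤ g.1.2}

theorem Cyl.Aint_open (s : Cyl J C Λ) : IsOpen (s.Aint φ) := by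
  rw [isOpen_iff_mem_nhds]
  rintro g ⟨h1, h2⟩
  rw [mem_nhds_Grp]
  classical
  refine ⟨s.F, fun j => if j ∈ s.F then interior (s.T j) else univ, ?_, ?_⟩
  · intro j
    by_cases hj : j ∈ s.F
    · simp only [if_pos hj]
      exact isOpen_interior.mem_nhds (h1 j hj)
    · simp only [if_neg hj]
      exact univ_mem
  · intro h h3 h4
    refine ⟨?_, h2.trans h4⟩
    intro j hj
    have := h3 j hj
    simpa only [if_pos hj] using this

/-- the step of the Baire argument -/
theorem Cyl.step [CompactSpace C] [T2Space C] (W O : Set (Grp J φ)) (hW : IsOpen W)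
    (hWne : W.Nonempty) (hO : IsOpen O) (hOd : Dense O) :
    ∃ s : Cyl J C Λ, s.A φ ⊆ W ∩ O ∧ (s.Aint φ).Nonempty := by
  obtain ⟨g, hgW, hgO⟩ := hOd.inter_open_nonempty W hW hWne
  have h1 : W ∩ O ∈ 𝓝 g := (hW.inter hO).mem_nhds ⟨hgW, hgO⟩
  rw [mem_nhds_Grp] at h1
  obtain ⟨F, T, hT, hFT⟩ := h1
  have h2 : ∀ j, ∃ T' : Set C, T' ∈ 𝓝 (g.1.1 j) ∧ IsClosed T' ∧ T' ⊆ T j := by
    intro j
    obtain ⟨T', h3, h4, h5⟩ := exists_mem_nhds_isClosed_subset (hT j)
    exact ⟨T', h3, h4, h5⟩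
  choose T' hT'1 hT'2 hT'3 using h2
  refine ⟨⟨F, T', g.1.2, hT'2⟩, ?_, ⟨g, ?_, le_refl _⟩⟩
  · rintro h ⟨h3, h4⟩
    exact hFT h (fun j hj => hT'3 j (h3 j hj)) h4
  · intro j _
    exact mem_interior_iff_mem_nhds.2 (hT'1 j)

theorem baire [CompactSpace C] [T2Space C] (hub : ∀ l : ℕ → Λ, ∃ b, ∀ n, l n ≤ b) :
    BaireSpace (Grp J φ) := by
  refine ⟨fun O hO hd => ?_⟩
  rw [dense_iff_inter_open]
  intro W hW hWne
  -- recursive construction
  have hstep : ∀ (n : ℕ) (s : {s : Cyl J C Λ // (s.Aint φ).Nonempty}),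
      ∃ s' : {s : Cyl J C Λ // (s.Aint φ).Nonempty}, s'.1.A φ ⊆ s.1.Aint φ ∩ O n := by
    intro n s
    obtain ⟨s', h1, h2⟩ := Cyl.step (s.1.Aint φ) (O n) s.1.Aint_open s.2 (hO n) (hd n)
    exact ⟨⟨s', h2⟩, h1⟩
  choose nxt hnxt using hstep
  obtain ⟨s0, hs0, hs0ne⟩ := Cyl.step W (O 0) hW hWne (hO 0) (hd 0)
  let s : ℕ → {s : Cyl J C Λ // (s.Aint φ).Nonempty} := fun n =>
    Nat.rec ⟨s0, hs0ne⟩ (fun n s => nxt (n + 1) s) n
  have hs : ∀ n, (s (n + 1)).1.A φ ⊆ (s n).1.Aint φ ∩ O (n + 1) := fun n => hnxt (n + 1) (s n)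
  have hint : ∀ n, (s n).1.Aint φ ⊆ (s n).1.A φ := by
    intro n g hg
    exact ⟨fun j hj => interior_subset (hg.1 j hj), hg.2⟩
  have hanti : Antitone fun n => (s n).1.A φ :=
    antitone_nat_of_succ_le fun n => (hs n).trans (inter_subset_left.trans (hint n))
  -- a point of the intersection of the closed sets
  let Z : ℕ → Set (J → C) := fun n => ⋂ m ∈ Finset.range (n + 1), (s m).1.K
  have hKcl : ∀ n, IsClosed ((s n).1.K) := by
    intro n
    have : (s n).1.K = ⋂ j ∈ (s n).1.F, (fun x : J → C => x j) ⁻¹' ((s n).1.T j) := by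
      ext x; simp [Cyl.K]
    rw [this]
    exact isClosed_biInter fun j _ => ((s n).1.hT j).preimage (continuous_apply j)
  have hne : ∀ n, (Z n).Nonempty := by
    intro n
    obtain ⟨g, hg⟩ := (s n).2
    refine ⟨g.1.1, ?_⟩
    simp only [Z, mem_iInter, Finset.mem_range]
    intro m hm
    exact (hanti (Nat.lt_succ_iff.1 hm) (hint n hg)).1
  have hcl : ∀ n, IsClosed (Z n) := by
    intro n
    exact isClosed_biInter fun m _ => hKcl m
  obtain ⟨x, hx⟩ := IsCompact.nonempty_iInter_of_sequence_nonempty_isCompact_isClosed Z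
    (by
      intro n y hy
      simp only [Z, mem_iInter, Finset.mem_range] at hy ⊢
      intro m hm
      exact hy m (by omega)) hne (hcl 0).isCompact hcl
  have hxK : ∀ n, x ∈ (s n).1.K := by
    intro n
    have h1 := mem_iInter.1 hx n
    simp only [Z, mem_iInter, Finset.mem_range] at h1
    exact h1 n (by omega)
  obtain ⟨b, hb⟩ := hub (fun n => (s n).1.l)
  let N : Set J := ⋃ n, ((s n).1.F : Set J)
  have hNc : N.Countable := countable_iUnion fun n => (s n).1.F.countable_toSet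
  let w : Grp J φ := pt φ N hNc x b
  have hw : ∀ n, w ∈ (s n).1.A φ := by
    intro n
    refine ⟨?_, hb n⟩
    intro j hj
    rw [show w.1.1 j = x j from pt_mem _ _ _ _ (mem_iUnion.2 ⟨n, hj⟩)]
    exact hxK n j hj
  refine ⟨w, ?_, ?_⟩
  · exact (hs0 (hw 0)).1
  · rw [mem_iInter]
    intro n
    rcases n with _ | n
    · exact (hs0 (hw 0)).2
    · exact (hs n (hw (n + 1))).2

end General

end Pool.Agent.W334.Cone
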