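import Pool.Agent.W334.Cone

set_option autoImplicit false
set_option linter.all false

noncomputable section

namespace Pool.Agent.W334.Cone

open Set Filter Topology Ordinal

/-- the set of countable ordinals -/
abbrev Om : Type := (ω₁ : Ordinal.{0}).ToType

theorem om_bdd (s : Set Om) (hs : s.Countable) : ∃ b : Om, ∀ a ∈ s, a < b := by
  haveI := hs.to_subtype
  have h1 : (⨆ a : s, ((ToType.toOrd a.1 : Set.Iio (ω₁ : Ordinal.{0})) : Ordinal.{0})) < ω₁ :=
    Ordinal.iSup_lt_omega_one fun a => (ToType.toOrd a.1).2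
  set o : Ordinal.{0} := ⨆ a : s, ((ToType.toOrd a.1 : Set.Iio (ω₁ : Ordinal.{0})) : Ordinal.{0})
    with ho
  have h2 : Order.succ o < ω₁ := (Cardinal.isSuccLimit_omega 1).succ_lt h1
  refine ⟨ToType.mk ⟨Order.succ o, h2⟩, ?_⟩
  intro a ha
  have h3 : ((ToType.toOrd a : Set.Iio (ω₁ : Ordinal.{0})) : Ordinal.{0}) ≤ o :=
    Ordinal.le_iSup (fun a : s => ((ToType.toOrd a.1 : Set.Iio (ω₁ : Ordinal.{0})) : Ordinal.{0}))
      ⟨a, ha⟩
  have h4 : ToType.toOrd a < (⟨Order.succ o, h2⟩ : Set.Iio (ω₁ : Ordinal.{0})) := by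
    show ((ToType.toOrd a : Set.Iio (ω₁ : Ordinal.{0})) : Ordinal.{0}) < Order.succ o
    exact lt_of_le_of_lt h3 (Order.lt_succ o)
  have h5 := ToType.mk.lt_iff_lt.2 h4
  simpa [ToType.toOrd] using h5

instance : Uncountable Om := by
  rw [← not_countable_iff]
  intro h
  obtain ⟨b, hb⟩ := om_bdd Set.univ (Set.countable_univ)
  exact lt_irrefl b (hb b (mem_univ b))

/-- finitely supported functions from the countable ordinals to the integers, ordered by the
largest index where they differ -/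
abbrev Lam : Type := Colex (Om →₀ ℤ)

/-- the compact group -/
abbrev CC : Type := Om → ℤ_[2]

def phi : Lam →+ CC where
  toFun l := fun i => ((ofColex l i : ℤ) : ℤ_[2])
  map_zero' := by
    funext i
    show (((0 : Om →₀ ℤ) i : ℤ) : ℤ_[2]) = 0
    simp
  map_add' := by
    intro a b
    funext i
    show (((ofColex a + ofColex b : Om →₀ ℤ) i : ℤ) : ℤ_[2]) = _
    simp

theorem phi_inj : Function.Injective phi := by
  intro a b hab
  have : ofColex a = ofColex b := by
    ext i
    have := congrFun hab i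
    have h2 : ((ofColex a i : ℤ) : ℤ_[2]) = ((ofColex b i : ℤ) : ℤ_[2]) := this
    exact_mod_cast h2
  exact this

/-- the positive unit vectors -/
def ee (i : Om) : Lam := toColex (Finsupp.single i 1)

theorem ee_gt (l : Lam) (i : Om) (h : ∀ j ∈ (ofColex l).support, j < i) : l < ee i := by
  rw [Finsupp.Colex.lt_iff]
  refine ⟨i, ?_, ?_⟩
  · intro d hd
    have h1 : ofColex l d = 0 := by
      by_contra hcon
      exact absurd (h d (Finsupp.mem_support_iff.2 hcon)) hd.not_gt
    show ofColex l d = (Finsupp.single i (1 : ℤ)) d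
    rw [h1, Finsupp.single_eq_of_ne hd.ne']
  · have h1 : ofColex l i = 0 := by
      by_contra hcon
      exact lt_irrefl i (h i (Finsupp.mem_support_iff.2 hcon))
    show ofColex l i < (Finsupp.single i (1 : ℤ)) i
    rw [h1]; simp

theorem ub (l : ℕ → Lam) : ∃ b, ∀ n, l n ≤ b := by
  obtain ⟨i, hi⟩ := om_bdd (⋃ n, ((ofColex (l n)).support : Set Om))
    (countable_iUnion fun n => Finset.countable_toSet _)
  exact ⟨ee i, fun n => (ee_gt _ _ fun j hj => hi j (mem_iUnion.2 ⟨n, hj⟩)).le⟩

theorem ee_pos (i : Om) : (0 : Lam) < ee i := ee_gt 0 i (by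
  intro j hj
  exact absurd hj (by simp [show ofColex (0 : Lam) = 0 from rfl]))

/-- the example -/
abbrev GG : Type := Grp Om phi

theorem gg_t2 : T2Space GG := t2 phi_inj

theorem gg_baire : BaireSpace GG := baire ub

theorem gg_two : TwoPsc GG := twoPsc ub

theorem gg_cprac : CPrac GG := by
  apply cPrac (range ee)
  · intro l
    obtain ⟨b, hb⟩ := om_bdd ((ofColex l).support : Set Om) (Finset.countable_toSet _)
    exact ⟨ee b, ⟨b, rfl⟩, (ee_gt l b hb).le⟩
  · rintro _ ⟨i, rfl⟩
    exact (ee_pos i).le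
  · intro W hW
    rw [nhds_pi, mem_pi'] at hW
    obtain ⟨F, T, hT, hFT⟩ := hW
    refine ((F.finite_toSet).image ee).subset ?_
    rintro _ ⟨⟨i, rfl⟩, hi⟩
    refine ⟨i, ?_, rfl⟩
    by_contra hcon
    apply hi
    apply hFT
    intro j hj
    have hij : j ≠ i := fun h => hcon (h ▸ hj)
    have h0 : phi (ee i) j = 0 := by
      show (((Finsupp.single i (1 : ℤ)) j : ℤ) : ℤ_[2]) = 0
      rw [Finsupp.single_eq_of_ne hij]; simp
    rw [h0]
    exact mem_of_mem_nhds (hT j)

theorem gg_not : ¬ ContinuousNeg GG := by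
  obtain ⟨b, _⟩ := om_bdd ∅ countable_empty
  exact not_continuousNeg ⟨ee b, ee_pos b⟩

end Pool.Agent.W334.Cone
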